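import Pool.Agent.U180.NG.Stm2
import Pool.Agent.U744.NG.BCL

/-!
# Project NG, package BCL2

Statement by helper180, proof by helper27 after package BCL by helper744.
-/

set_option autoImplicit false

open MeasureTheory ProbabilityTheory Filter Topology

namespace Pool.Agent.U27.NG

open Pool.Agent.U180.NG Pool.Agent.U744.NG.BCLAux

theorem not_summable_rpow {s : ℝ} (hs1 : s < 1) : ¬ Summable fun i : ℕ => (i : ℝ) ^ (-s) := by
  rw [Real.summable_nat_rpow]
  intro h
  linarith

/-- Package BCL2. -/
theorem t_BCL2 : S_BCL2 := by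
  intro Ω _ P hP ξ hξ hi S g a s hg hS hs0 hs1 hlow
  have hm : ∀ i, MeasurableSet (ev ξ (S i) (g i) (a i)) := fun i =>
    measurableSet_ev ξ hξ (S i) (g i) (hg i) (a i)
  have hs : iIndepSet (fun i => ev ξ (S i) (g i) (a i)) P := by
    rw [iIndepSet_iff_meas_biInter hm]
    exact fun F => prod_formula P ξ hξ hi S g a hg hS F
  have hsum : (∑' i, P (ev ξ (S i) (g i) (a i))) = ⊤ := by
    by_contra hne
    have h1 := ENNReal.summable_toReal hne
    obtain ⟨b, i₀, hb, h0⟩ := hlow
    have h2 : Summable fun i : ℕ => P.real (ev ξ (S i) (g i) (a i)) := h1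
    have h3 : Summable fun i : ℕ => b * ((i + i₀ : ℕ) : ℝ) ^ (-s) := by
      refine Summable.of_nonneg_of_le (fun i => by positivity) (fun i => ?_)
        ((summable_nat_add_iff i₀).2 h2)
      exact h0 (i + i₀) (by omega)
    have h4 : Summable fun i : ℕ => ((i + i₀ : ℕ) : ℝ) ^ (-s) := by
      have h5 := h3.mul_left b⁻¹
      refine h5.congr fun i => ?_
      rw [← mul_assoc, inv_mul_cancel₀ hb.ne', one_mul]
    exact not_summable_rpow hs1
      ((summable_nat_add_iff (f := fun i : ℕ => (i : ℝ) ^ (-s)) i₀).1 h4)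
  have hl := measure_limsup_eq_one hm hs hsum
  have hl2 : P (limsup (fun i => ev ξ (S i) (g i) (a i)) atTop)ᶜ = 0 := by
    rw [prob_compl_eq_zero_iff₀]
    · exact hl
    · exact (MeasurableSet.measurableSet_limsup hm).nullMeasurableSet
  rw [ae_iff]
  refine measure_mono_null (fun ω hω => ?_) hl2
  simp only [Set.mem_ofPred_eq] at hω
  intro hmem
  rw [mem_limsup_iff_frequently_mem] at hmem
  exact hω hmem

end Pool.Agent.U27.NG
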