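import Mathlib
import Pool.Agent.U180.NG.Stm

/-!
# Project NG, package PHI

Statement by helper180, proof by helper27.
-/

set_option autoImplicit false

open MeasureTheory

namespace Pool.Agent.U27.NG

open Pool.Agent.U180.NG

lemma clamp_sub {δ a b : ℝ} (hδ : 0 < δ) (hab : a ≤ b) :
    max (min δ b - max 0 a) 0 = clamp δ b - clamp δ a := by
  unfold clamp
  rcases le_total 0 a with ha | ha <;> rcases le_total 0 b with hb | hb <;>
    rcases le_total δ a with hda | hda <;> rcases le_total δ b with hdb | hdb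
  all_goals
    simp only [max_def, min_def]
    split_ifs <;> linarith

theorem t_PHI : S_PHI := by
  intro δ R y z hδ hR
  have hsub : {t : ℝ | t ∈ Set.Icc 0 δ ∧ ((z.1 : ℝ) + (t + y.1)) ^ 2 + ((z.2 : ℝ) + y.2) ^ 2 ≤ R ^ 2} ⊆
      Set.Icc 0 δ := fun t ht => ht.1
  have hle : (volume {t : ℝ | t ∈ Set.Icc 0 δ ∧
      ((z.1 : ℝ) + (t + y.1)) ^ 2 + ((z.2 : ℝ) + y.2) ^ 2 ≤ R ^ 2}).toReal ≤ δ := by
    have h1 := measure_mono (μ := (volume : Measure ℝ)) hsub
    rw [Real.volume_Icc, sub_zero] at h1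
    have h2 := ENNReal.toReal_mono ENNReal.ofReal_ne_top h1
    rwa [ENNReal.toReal_ofReal hδ.le] at h2
  refine ⟨div_nonneg ENNReal.toReal_nonneg hδ.le, ?_, ?_, ?_⟩
  · unfold phi
    rw [div_le_one hδ]
    exact hle
  · intro h
    have h1 : R ^ 2 < ((z.2 : ℝ) + y.2) ^ 2 := by
      rw [sq_lt_sq, abs_of_nonneg hR]
      exact h
    have h2 : {t : ℝ | t ∈ Set.Icc 0 δ ∧
        ((z.1 : ℝ) + (t + y.1)) ^ 2 + ((z.2 : ℝ) + y.2) ^ 2 ≤ R ^ 2} = ∅ := by
      ext t
      simp only [Set.mem_ofPred_eq, Set.mem_empty_iff_false, iff_false, not_and, not_le]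
      intro _
      have := sq_nonneg ((z.1 : ℝ) + (t + y.1))
      linarith
    unfold phi
    rw [h2]
    simp
  · intro h
    have h1 : 0 ≤ R ^ 2 - ((z.2 : ℝ) + y.2) ^ 2 := by
      have : ((z.2 : ℝ) + y.2) ^ 2 ≤ R ^ 2 := by
        rw [sq_le_sq, abs_of_nonneg hR]
        exact h
      linarith
    have hh : 0 ≤ hl R y.2 z.2 := Real.sqrt_nonneg _
    have h2 : {t : ℝ | t ∈ Set.Icc 0 δ ∧
        ((z.1 : ℝ) + (t + y.1)) ^ 2 + ((z.2 : ℝ) + y.2) ^ 2 ≤ R ^ 2} =
        Set.Icc (max 0 (-hl R y.2 z.2 - y.1 - z.1)) (min δ (hl R y.2 z.2 - y.1 - z.1)) := by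
      rw [← Set.Icc_inter_Icc]
      ext t
      simp only [Set.mem_ofPred_eq, Set.mem_inter_iff, Set.mem_Icc]
      refine and_congr_right fun _ => ?_
      have h3 : ((z.1 : ℝ) + (t + y.1)) ^ 2 + ((z.2 : ℝ) + y.2) ^ 2 ≤ R ^ 2 ↔
          |(z.1 : ℝ) + (t + y.1)| ≤ hl R y.2 z.2 := by
        unfold hl
        constructor
        · intro h4
          refine Real.le_sqrt_of_sq_le ?_
          rw [sq_abs]
          linarith
        · intro h4
          have h5 := mul_self_le_mul_self (abs_nonneg _) h4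
          rw [Real.mul_self_sqrt h1, ← pow_two, sq_abs] at h5
          linarith
      rw [h3, abs_le]
      constructor <;> rintro ⟨h4, h5⟩ <;> constructor <;> linarith
    unfold phi
    rw [h2, Real.volume_Icc, ENNReal.toReal_ofReal', clamp_sub hδ (by linarith)]

end Pool.Agent.U27.NG
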